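import Mathlib

open MeasureTheory Topology Filter Set

namespace Pool.Agent.Results.MP_c1fe20_lc.FreeMonoidAction

/-- `R` Borel reduces to `S`. -/
def BorelReduces {X Y : Type*} [MeasurableSpace X] [MeasurableSpace Y]
    (R : X → X → Prop) (S : Y → Y → Prop) : Prop :=
  ∃ f : X → Y, Measurable f ∧ ∀ x x', R x x' ↔ S (f x) (f x')

/-- `R` and `S` are Borel equivalent: each Borel reduces to the other. -/
def BorelEquivalent {X Y : Type*} [MeasurableSpace X] [MeasurableSpace Y]
    (R : X → X → Prop) (S : Y → Y → Prop) : Prop :=
  BorelReduces R S ∧ BorelReduces S R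

/-- `R` is an analytic quasi-order on the standard Borel space `X`: it is reflexive, transitive,
and `{(x, y) | R x y}` is an analytic subset of `X × X` with respect to some Polish topology
on `X` which generates the Borel structure of `X`. -/
def IsAnalyticQuasiOrder {X : Type*} [MeasurableSpace X] (R : X → X → Prop) : Prop :=
  (∀ x, R x x) ∧ (∀ x y z, R x y → R y z → R x z) ∧
    ∃ _ : TopologicalSpace X, PolishSpace X ∧ BorelSpace X ∧ AnalyticSet {p : X × X | R p.1 p.2}

/-- The relation induced by an action of `M` on `Y`. -/
def inducedBy (M : Type*) {Y : Type*} [SMul M Y] (x y : Y) : Prop := ∃ g : M, g • x = y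

/-! ### The free Polish monoid -/

/-- Words over `P`, topologised as the disjoint union of the finite powers of `P`. -/
def Word (P : Type*) : Type _ := Σ n : ℕ, (Fin n → P)

section Word

variable {P : Type*}

instance [TopologicalSpace P] : TopologicalSpace (Word P) :=
  inferInstanceAs (TopologicalSpace (Σ n : ℕ, (Fin n → P)))

instance [TopologicalSpace P] [PolishSpace P] : PolishSpace (Word P) :=
  inferInstanceAs (PolishSpace (Σ n : ℕ, (Fin n → P)))

/-- The list of letters of a word. -/
def Word.toList (w : Word P) : List P := List.ofFn w.2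

/-- The word with a given list of letters. -/
def Word.ofList (l : List P) : Word P := ⟨l.length, l.get⟩

theorem Word.toList_ofList (l : List P) : (Word.ofList l).toList = l := by
  simp [Word.ofList, Word.toList]

theorem Word.ofList_toList (w : Word P) : Word.ofList w.toList = w :=
  (List.equivSigmaTuple (α := P)).right_inv w

theorem Word.toList_injective : Function.Injective (Word.toList (P := P)) :=
  Function.LeftInverse.injective Word.ofList_toList

/-- Concatenation of words. -/
instance : Mul (Word P) := ⟨fun u v => ⟨u.1 + v.1, Fin.append u.2 v.2⟩⟩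

/-- The empty word. -/
instance : One (Word P) := ⟨⟨0, fun i => i.elim0⟩⟩

theorem Word.toList_mul (u v : Word P) : (u * v).toList = u.toList ++ v.toList :=
  List.ofFn_fin_append u.2 v.2

theorem Word.toList_one : (1 : Word P).toList = [] := rfl

instance : Monoid (Word P) where
  mul_assoc a b c := by
    apply Word.toList_injective
    simp only [Word.toList_mul, List.append_assoc]
  one_mul a := by
    apply Word.toList_injective
    simp only [Word.toList_mul, Word.toList_one, List.nil_append]
  mul_one a := by
    apply Word.toList_injective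
    simp only [Word.toList_mul, Word.toList_one, List.append_nil]

theorem continuous_sigma_prod_sigma {ι κ : Type*} {A : ι → Type*} {B : κ → Type*}
    [∀ i, TopologicalSpace (A i)] [∀ j, TopologicalSpace (B j)] {Z : Type*} [TopologicalSpace Z]
    (f : (Sigma A) × (Sigma B) → Z)
    (h : ∀ i j, Continuous (fun p : A i × B j => f (⟨i, p.1⟩, ⟨j, p.2⟩))) : Continuous f := by
  rw [continuous_iff_continuousAt]
  rintro ⟨⟨i, a⟩, ⟨j, b⟩⟩
  have hopen : IsOpenEmbedding (Prod.map (Sigma.mk (β := A) i) (Sigma.mk (β := B) j)) :=
    IsOpenEmbedding.sigmaMk.prodMap IsOpenEmbedding.sigmaMk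
  exact (hopen.continuousAt_iff (x := (a, b))).1 ((h i j).continuousAt (x := (a, b)))

theorem continuous_sigma_prod {ι : Type*} {A : ι → Type*}
    [∀ i, TopologicalSpace (A i)] {Y Z : Type*} [TopologicalSpace Y] [TopologicalSpace Z]
    (f : (Sigma A) × Y → Z)
    (h : ∀ i, Continuous (fun p : A i × Y => f (⟨i, p.1⟩, p.2))) : Continuous f := by
  rw [continuous_iff_continuousAt]
  rintro ⟨⟨i, a⟩, b⟩
  have hopen : IsOpenEmbedding (Prod.map (Sigma.mk (β := A) i) (id : Y → Y)) :=
    IsOpenEmbedding.sigmaMk.prodMap IsOpenEmbedding.id
  exact (hopen.continuousAt_iff (x := (a, b))).1 ((h i).continuousAt (x := (a, b)))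

instance [TopologicalSpace P] : ContinuousMul (Word P) where
  continuous_mul := by
    apply continuous_sigma_prod_sigma
    intro m n
    have : Continuous (fun p : (Fin m → P) × (Fin n → P) => Fin.append p.1 p.2) := by
      rw [continuous_pi_iff]
      intro i
      refine Fin.addCases (fun i => ?_) (fun i => ?_) i
      · simp only [Fin.append_left]
        fun_prop
      · simp only [Fin.append_right]
        fun_prop
    exact (continuous_sigmaMk (σ := fun n : ℕ => (Fin n → P)) (i := m + n)).comp this

end Word

/-! ### The space of streams and the basic moves -/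

/-- Streams over the three letter alphabet `0, 1, 2`; the letter `0` is a restart sign. -/
abbrev Stream3 : Type := ℕ → Fin 3

theorem polishSpace_stream3 : PolishSpace Stream3 :=
  have : ∀ _ : ℕ, PolishSpace (Fin 3) := fun _ => inferInstance
  have : TopologicalSpace.IsCompletelyMetrizableSpace (ℕ → Fin 3) := inferInstance
  have : SecondCountableTopology (ℕ → Fin 3) := inferInstance
  inferInstance

/-- `follow d d' e` copies `d'` as long as `e` agrees with `d`; at the first disagreement `n` it
writes the restart sign and then copies the whole of `e`. -/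
noncomputable def follow (d d' e : Stream3) : Stream3 := fun k =>
  open Classical in
  if ∀ i ≤ k, e i = d i then d' k
  else if k = sInf {i | i ≤ k ∧ e i ≠ d i} then 0
  else e (k - sInf {i | i ≤ k ∧ e i ≠ d i} - 1)

theorem follow_congr {d₁ d₂ d₁' d₂' e₁ e₂ : Stream3} {k : ℕ} (hd : ∀ i ≤ k, d₁ i = d₂ i)
    (hd' : ∀ i ≤ k, d₁' i = d₂' i) (he : ∀ i ≤ k, e₁ i = e₂ i) :
    follow d₁ d₁' e₁ k = follow d₂ d₂' e₂ k := by
  have hset : {i | i ≤ k ∧ e₁ i ≠ d₁ i} = {i | i ≤ k ∧ e₂ i ≠ d₂ i} := by
    ext i
    simp only [mem_ofPred_eq]
    constructor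
    · rintro ⟨h1, h2⟩
      exact ⟨h1, by rwa [← he i h1, ← hd i h1]⟩
    · rintro ⟨h1, h2⟩
      exact ⟨h1, by rwa [he i h1, hd i h1]⟩
  have hall : (∀ i ≤ k, e₁ i = d₁ i) ↔ (∀ i ≤ k, e₂ i = d₂ i) := by
    constructor
    · intro h i hi
      rw [← he i hi, ← hd i hi]
      exact h i hi
    · intro h i hi
      rw [he i hi, hd i hi]
      exact h i hi
  unfold follow
  simp only [hset, hall]
  split_ifs with h1 h2
  · exact hd' k le_rfl
  · rfl
  · exact he _ (by omega)

theorem follow_self (d d' : Stream3) : follow d d' d = d' := by
  funext k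
  simp [follow]

/-- If `e ≠ d` then `follow d d' e` is a restart sign at some place followed by `e`. -/
theorem follow_of_ne {d d' e : Stream3} (h : e ≠ d) :
    ∃ n, follow d d' e n = 0 ∧ ∀ j, follow d d' e (n + 1 + j) = e j := by
  have hex : ∃ i, e i ≠ d i := by
    by_contra hcon
    push Not at hcon
    exact h (funext hcon)
  classical
  set n := Nat.find hex with hn
  have hn1 : e n ≠ d n := Nat.find_spec hex
  have hn2 : ∀ i < n, e i = d i := fun i hi => by
    have := Nat.find_min hex hi
    push Not at this
    exact this
  have key : ∀ k, n ≤ k → sInf {i | i ≤ k ∧ e i ≠ d i} = n := by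
    intro k hk
    apply le_antisymm
    · exact Nat.sInf_le ⟨hk, hn1⟩
    · apply le_csInf (show ({i | i ≤ k ∧ e i ≠ d i} : Set ℕ).Nonempty from ⟨n, hk, hn1⟩)
      rintro i ⟨_, hi⟩
      by_contra hlt
      push Not at hlt
      exact hi (hn2 i hlt)
  have key2 : ∀ k, n ≤ k → ¬ ∀ i ≤ k, e i = d i := fun k hk hcon => hn1 (hcon n hk)
  refine ⟨n, ?_, fun j => ?_⟩
  · unfold follow
    rw [if_neg (key2 n le_rfl), key n le_rfl, if_pos rfl]
  · unfold follow
    rw [if_neg (key2 _ (by omega)), key _ (by omega), if_neg (by omega)]
    congr 1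
    omega

theorem continuous_follow :
    Continuous (fun p : (Stream3 × Stream3) × Stream3 => follow p.1.1 p.1.2 p.2) := by
  rw [continuous_pi_iff]
  intro k
  rw [continuous_iff_continuousAt]
  intro x
  have hev : ∀ᶠ p in 𝓝 x, ∀ i ∈ Finset.range (k + 1),
      p.1.1 i = x.1.1 i ∧ p.1.2 i = x.1.2 i ∧ p.2 i = x.2 i := by
    rw [Filter.eventually_all_finset]
    intro i _
    have h1 : ContinuousAt (fun p : (Stream3 × Stream3) × Stream3 => p.1.1 i) x :=
      Continuous.continuousAt (by fun_prop)
    have h2 : ContinuousAt (fun p : (Stream3 × Stream3) × Stream3 => p.1.2 i) x :=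
      Continuous.continuousAt (by fun_prop)
    have h3 : ContinuousAt (fun p : (Stream3 × Stream3) × Stream3 => p.2 i) x :=
      Continuous.continuousAt (by fun_prop)
    exact (h1.eventually (show ∀ᶠ a in 𝓝 (x.1.1 i), a = x.1.1 i from by simp)).and
      ((h2.eventually (show ∀ᶠ a in 𝓝 (x.1.2 i), a = x.1.2 i from by simp)).and
      (h3.eventually (show ∀ᶠ a in 𝓝 (x.2 i), a = x.2 i from by simp)))
  apply ContinuousAt.congr (f := fun _ => follow x.1.1 x.1.2 x.2 k) continuousAt_const
  filter_upwards [hev] with p hp
  exact follow_congr (fun i hi => (hp i (by simpa [Nat.lt_succ_iff] using hi)).1.symm)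
    (fun i hi => (hp i (by simpa [Nat.lt_succ_iff] using hi)).2.1.symm)
    (fun i hi => (hp i (by simpa [Nat.lt_succ_iff] using hi)).2.2.symm)

/-! ### Decoding streams -/

/-- The places after which no restart sign occurs. -/
def quiet (f : Stream3) : Set ℕ := {m | ∀ k ≥ m, f k ≠ 0}

/-- The part of the stream after the last restart sign. -/
noncomputable def tail3 (f : Stream3) : ℕ → Bool := fun k => decide (f (sInf (quiet f) + k) = 2)

/-- Decoding of a stream to a point of `X`. -/
noncomputable def decode {X : Type*} (π : (ℕ → Bool) → X) (x₀ : X) (f : Stream3) : X :=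
  open Classical in if (quiet f).Nonempty then π (tail3 f) else x₀

theorem quiet_shift {f e : Stream3} {n : ℕ} (h0 : f n = 0) (h : ∀ j, f (n + 1 + j) = e j) :
    quiet f = (fun m => n + 1 + m) '' quiet e := by
  ext m
  simp only [quiet, mem_ofPred_eq, mem_image]
  constructor
  · intro hm
    have hlt : n < m := by
      by_contra hcon
      push Not at hcon
      exact hm n hcon h0
    refine ⟨m - (n + 1), fun k hk => ?_, by omega⟩
    rw [← h k]
    exact hm _ (by omega)
  · rintro ⟨m', hm', rfl⟩ k hk
    have := hm' (k - (n + 1)) (by omega)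
    rw [← h] at this
    rwa [show n + 1 + (k - (n + 1)) = k by omega] at this

theorem decode_shift {X : Type*} (π : (ℕ → Bool) → X) (x₀ : X) {f e : Stream3} {n : ℕ}
    (h0 : f n = 0) (h : ∀ j, f (n + 1 + j) = e j) : decode π x₀ f = decode π x₀ e := by
  have hq := quiet_shift h0 h
  unfold decode
  by_cases hne : (quiet e).Nonempty
  · have hne' : (quiet f).Nonempty := by rw [hq]; exact hne.image _
    rw [if_pos hne, if_pos hne']
    have hinf : sInf (quiet f) = n + 1 + sInf (quiet e) := by
      rw [hq]
      apply le_antisymm
      · exact Nat.sInf_le ⟨_, Nat.sInf_mem hne, rfl⟩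
      · apply le_csInf (hne.image _)
        rintro _ ⟨m, hm, rfl⟩
        have := Nat.sInf_le hm
        simp only
        omega
    congr 1
    funext k
    simp only [tail3, hinf]
    rw [add_assoc, h]
  · have hne' : ¬ (quiet f).Nonempty := by
      rw [hq, Set.image_nonempty]
      exact hne
    rw [if_neg hne, if_neg hne']

/-- Encoding of a bit sequence as a stream without restart signs. -/
def encode (b : ℕ → Bool) : Stream3 := fun k => if b k then 2 else 1

theorem encode_ne_zero (b : ℕ → Bool) (k : ℕ) : encode b k ≠ 0 := by
  unfold encode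
  split_ifs <;> decide

theorem decode_encode {X : Type*} (π : (ℕ → Bool) → X) (x₀ : X) (b : ℕ → Bool) :
    decode π x₀ (encode b) = π b := by
  have hq : quiet (encode b) = univ := by
    ext m
    simp only [quiet, mem_ofPred_eq, mem_univ, iff_true]
    exact fun k _ => encode_ne_zero b k
  have hinf : sInf (quiet (encode b)) = 0 := by
    rw [hq]
    exact Nat.le_zero.1 (Nat.sInf_le (mem_univ 0))
  unfold decode
  rw [if_pos (by rw [hq]; exact univ_nonempty)]
  congr 1
  funext k
  simp only [tail3, hinf, zero_add, encode]
  cases b k <;> decide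

theorem measurable_encode : Measurable encode := by
  rw [measurable_pi_iff]
  intro k
  exact (measurable_of_countable (fun c : Bool => if c then (2 : Fin 3) else 1)).comp
    (measurable_pi_apply k)

theorem measurableSet_mem_quiet (m : ℕ) : MeasurableSet {f : Stream3 | m ∈ quiet f} := by
  have : {f : Stream3 | m ∈ quiet f} = ⋂ k ≥ m, {f : Stream3 | f k ≠ 0} := by
    ext f
    simp [quiet]
  rw [this]
  refine MeasurableSet.iInter fun k => MeasurableSet.iInter fun _ => ?_
  exact (measurableSet_eq_fun (measurable_pi_apply k) measurable_const).compl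

theorem measurableSet_quiet_nonempty : MeasurableSet {f : Stream3 | (quiet f).Nonempty} := by
  have : {f : Stream3 | (quiet f).Nonempty} = ⋃ m, {f : Stream3 | m ∈ quiet f} := by
    ext f
    simp [Set.Nonempty]
  rw [this]
  exact MeasurableSet.iUnion measurableSet_mem_quiet

theorem measurable_sInf_quiet : Measurable (fun f : Stream3 => sInf (quiet f)) := by
  apply measurable_of_Iic
  intro m
  have : (fun f : Stream3 => sInf (quiet f)) ⁻¹' Iic m =
      {f : Stream3 | m ∈ quiet f} ∪ {f : Stream3 | (quiet f).Nonempty}ᶜ := by
    ext f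
    simp only [mem_preimage, mem_Iic, mem_union, mem_ofPred_eq, mem_compl_iff]
    constructor
    · intro h
      by_cases hne : (quiet f).Nonempty
      · left
        have := Nat.sInf_mem hne
        exact fun k hk => this k (le_trans h hk)
      · right
        exact hne
    · rintro (h | h)
      · exact Nat.sInf_le h
      · rw [Set.not_nonempty_iff_eq_empty] at h
        rw [h, Nat.sInf_empty]
        exact Nat.zero_le _
  rw [this]
  exact (measurableSet_mem_quiet m).union measurableSet_quiet_nonempty.compl

theorem measurable_tail3 : Measurable tail3 := by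
  rw [measurable_pi_iff]
  intro k
  have h1 : Measurable (fun p : Stream3 × ℕ => decide (p.1 (p.2 + k) = 2)) := by
    apply measurable_from_prod_countable_left
    intro n
    exact (measurable_of_countable (fun c : Fin 3 => decide (c = 2))).comp
      (measurable_pi_apply (n + k))
  exact h1.comp (measurable_id.prodMk measurable_sInf_quiet)

theorem measurable_decode {X : Type*} [MeasurableSpace X] {π : (ℕ → Bool) → X}
    (hπ : Measurable π) (x₀ : X) : Measurable (decode π x₀) := by
  unfold decode
  exact Measurable.ite measurableSet_quiet_nonempty (hπ.comp measurable_tail3) measurable_const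

/-- The preimage of an analytic relation under a Borel map is analytic. -/
theorem analyticSet_pullback {X : Type*} [MeasurableSpace X] [TopologicalSpace X] [PolishSpace X]
    [BorelSpace X] {R : X → X → Prop} (hR : AnalyticSet {p : X × X | R p.1 p.2})
    {r : Stream3 → X} (hr : Measurable r) :
    AnalyticSet {p : Stream3 × Stream3 | R (r p.1) (r p.2)} := by
  rw [AnalyticSet] at hR
  rcases hR with hR | ⟨φ, hφ, hφR⟩
  · have : {p : Stream3 × Stream3 | R (r p.1) (r p.2)} = ∅ := by
      ext p
      simp only [mem_ofPred_eq, mem_empty_iff_false, iff_false]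
      intro hp
      have : (r p.1, r p.2) ∈ {p : X × X | R p.1 p.2} := hp
      rw [hR] at this
      exact this
    rw [this]
    exact analyticSet_empty
  · have hmeas : MeasurableSet {q : (Stream3 × Stream3) × (ℕ → ℕ) |
        (r q.1.1, r q.1.2) = φ q.2} := by
      refine measurableSet_eq_fun ?_ ?_
      · exact (hr.comp (measurable_fst.comp measurable_fst)).prodMk
          (hr.comp (measurable_snd.comp measurable_fst))
      · exact hφ.measurable.comp measurable_snd
    have himage := hmeas.analyticSet_image (f := Prod.fst) measurable_fst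
    convert himage using 1
    ext p
    simp only [mem_ofPred_eq, mem_image, Prod.exists, exists_and_right, exists_eq_right]
    have hiff : R (r p.1) (r p.2) ↔ (r p.1, r p.2) ∈ range φ := by
      rw [hφR]
      rfl
    rw [hiff]
    simp only [mem_range]
    exact exists_congr fun w => eq_comm

/-! ### The action of the free Polish monoid -/

/-- The action of words over `ℕ → ℕ` on streams determined by a parametrised family of pairs. -/
noncomputable def act (φ : (ℕ → ℕ) → Stream3 × Stream3) (l : List (ℕ → ℕ)) (e : Stream3) :
    Stream3 :=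
  l.foldr (fun p e => follow (φ p).1 (φ p).2 e) e

theorem continuous_act_ofFn {φ : (ℕ → ℕ) → Stream3 × Stream3} (hφ : Continuous φ) (n : ℕ) :
    Continuous (fun q : (Fin n → (ℕ → ℕ)) × Stream3 => act φ (List.ofFn q.1) q.2) := by
  induction n with
  | zero =>
    simp only [List.ofFn_zero, act, List.foldr_nil]
    exact continuous_snd
  | succ n ih =>
    have heq : (fun q : (Fin (n + 1) → (ℕ → ℕ)) × Stream3 => act φ (List.ofFn q.1) q.2) =
        fun q => follow (φ (q.1 0)).1 (φ (q.1 0)).2
          (act φ (List.ofFn (fun i : Fin n => q.1 i.succ)) q.2) := by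
      funext q
      rw [List.ofFn_succ]
      rfl
    rw [heq]
    have h1 : Continuous (fun q : (Fin (n + 1) → (ℕ → ℕ)) × Stream3 => φ (q.1 0)) := by
      fun_prop
    have h2 : Continuous (fun q : (Fin (n + 1) → (ℕ → ℕ)) × Stream3 =>
        act φ (List.ofFn (fun i : Fin n => q.1 i.succ)) q.2) :=
      ih.comp (by fun_prop : Continuous (fun q : (Fin (n + 1) → (ℕ → ℕ)) × Stream3 =>
        ((fun i : Fin n => q.1 i.succ), q.2)))
    exact continuous_follow.comp (h1.prodMk h2)

/-- The monoid action of `Word (ℕ → ℕ)` on streams. -/
noncomputable abbrev wordAction (φ : (ℕ → ℕ) → Stream3 × Stream3) :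
    MulAction (Word (ℕ → ℕ)) Stream3 where
  smul w e := act φ w.toList e
  one_smul e := rfl
  mul_smul u v e := by
    change act φ (u * v).toList e = act φ u.toList (act φ v.toList e)
    rw [Word.toList_mul]
    exact List.foldr_append

/-- **Every analytic quasi-order is Borel equivalent to one induced by a continuous functional
action of a Polish monoid**; moreover one Polish monoid works for all of them. -/
theorem result.{u} :
    ∃ (M : Type) (_ : Monoid M) (_ : TopologicalSpace M) (_ : PolishSpace M)
      (_ : ContinuousMul M),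
      ∀ (X : Type u) [MeasurableSpace X] [StandardBorelSpace X] (R : X → X → Prop),
        IsAnalyticQuasiOrder R →
        ∃ (Y : Type) (_ : TopologicalSpace Y) (_ : PolishSpace Y) (_ : MeasurableSpace Y)
          (_ : BorelSpace Y) (_ : MulAction M Y) (_ : ContinuousSMul M Y),
          BorelEquivalent R (inducedBy M (Y := Y)) := by
  refine ⟨Word (ℕ → ℕ), inferInstance, inferInstance, inferInstance, inferInstance, ?_⟩
  intro X _ _ R hR
  obtain ⟨hrefl, htrans, _, hpol, hbor, han⟩ := hR
  rcases isEmpty_or_nonempty X with hX | hX
  · let A₀ : MulAction (Word (ℕ → ℕ)) Empty :=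
      { smul := fun _ y => y, one_smul := fun _ => rfl, mul_smul := fun _ _ _ => rfl }
    refine ⟨Empty, instTopologicalSpaceEmpty, inferInstance, ⊤, inferInstance, A₀,
      ⟨continuous_snd⟩, ?_, ?_⟩
    · exact ⟨fun x => isEmptyElim x, measurable_of_empty _, fun x => isEmptyElim x⟩
    · exact ⟨fun x => isEmptyElim x, measurable_of_empty _, fun x => isEmptyElim x⟩
  · have hj : MeasurableEmbedding (MeasurableSpace.mapNatBool X) :=
      (MeasurableSpace.measurable_mapNatBool X).measurableEmbedding
        (MeasurableSpace.injective_mapNatBool X)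
    obtain ⟨π, hπ, hπj⟩ := hj.exists_measurable_extend (measurable_id (α := X)) (fun _ => hX)
    obtain ⟨x₀⟩ := id hX
    set r : Stream3 → X := decode π x₀ with hr
    have hrmeas : Measurable r := measurable_decode hπ x₀
    have hR' := analyticSet_pullback han hrmeas
    rw [AnalyticSet] at hR'
    rcases hR' with hempty | ⟨φ, hφ, hφR⟩
    · exfalso
      have : ((fun _ => 0, fun _ => 0) : Stream3 × Stream3) ∈
          {p : Stream3 × Stream3 | R (r p.1) (r p.2)} := hrefl _
      rw [hempty] at this
      exact this
    have hφ1 : ∀ w, R (r (φ w).1) (r (φ w).2) := fun w => by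
      have : φ w ∈ range φ := ⟨w, rfl⟩
      rw [hφR] at this
      exact this
    have hstep : ∀ w e, R (r e) (r (follow (φ w).1 (φ w).2 e)) := by
      intro w e
      by_cases h : e = (φ w).1
      · subst h
        rw [follow_self]
        exact hφ1 w
      · obtain ⟨n, h0, hn⟩ := follow_of_ne (d' := (φ w).2) h
        have : r (follow (φ w).1 (φ w).2 e) = r e := decode_shift π x₀ h0 hn
        rw [this]
        exact hrefl _
    have hact : ∀ (l : List (ℕ → ℕ)) e, R (r e) (r (act φ l e)) := by
      intro l e
      induction l with
      | nil => exact hrefl _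
      | cons w l ih => exact htrans _ _ _ ih (hstep w _)
    let A : MulAction (Word (ℕ → ℕ)) Stream3 := wordAction φ
    have hinduced : ∀ e e' : Stream3, R (r e) (r e') ↔ inducedBy (Word (ℕ → ℕ)) e e' := by
      intro e e'
      constructor
      · intro h
        have hmem : (e, e') ∈ range φ := by
          rw [hφR]
          exact h
        obtain ⟨w, hw⟩ := hmem
        refine ⟨Word.ofList [w], ?_⟩
        change act φ (Word.ofList [w]).toList e = e'
        rw [Word.toList_ofList]
        change follow (φ w).1 (φ w).2 e = e'
        rw [hw]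
        exact follow_self e e'
      · rintro ⟨w, rfl⟩
        exact hact w.toList e
    have hpolY : PolishSpace Stream3 := polishSpace_stream3
    have hborY : BorelSpace Stream3 := inferInstance
    refine ⟨Stream3, Pi.topologicalSpace, hpolY, MeasurableSpace.pi, hborY, A, ⟨?_⟩, ?_, ?_⟩
    · exact continuous_sigma_prod _ (fun n => continuous_act_ofFn hφ n)
    · refine ⟨fun x => encode (MeasurableSpace.mapNatBool X x),
        measurable_encode.comp (MeasurableSpace.measurable_mapNatBool X), fun x x' => ?_⟩
      have hrs : ∀ x, r (encode (MeasurableSpace.mapNatBool X x)) = x := fun x => by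
        rw [hr, decode_encode]
        exact congrFun hπj x
      rw [← hinduced, hrs, hrs]
    · exact ⟨r, hrmeas, fun e e' => (hinduced e e').symm⟩

end Pool.Agent.Results.MP_c1fe20_lc.FreeMonoidAction
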